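import Mathlib

/-!
# MP_902c37_an: the core of a subdomain containing the core can be smaller

`Ω = {(z, w) : |w| < 1, |z w| < 1} \ {(z, 0) : |z| ≥ 1}` and `ω = {|z| < 1, |w| < 1}`. The core of
`Ω` is the disc `{|z| < 1, w = 0}`, because `Ω` contains the discs `{|z| < 1 / |w|}` at height `w`;
it is contained in the bidisc `ω`, whose core is empty.
-/

set_option autoImplicit false

open InnerProductSpace Laplacian Topology ContDiff

namespace Pool.Agent.Results.MP_902c37_an.CoreShrinks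

/-- A domain: a nonempty connected open subset of `ℂ^n`. -/
def IsDom {n : ℕ} (D : Set (Fin n → ℂ)) : Prop := IsOpen D ∧ IsConnected D

/-- The Levi form of `φ` at `z` in the direction `ξ`: `∂²/∂ζ∂ζ̄ φ (z + ζ ξ)` at `ζ = 0`, that is, one
quarter of the Laplacian of `ζ ↦ φ (z + ζ ξ)` at `0`. -/
noncomputable def levi {n : ℕ} (φ : (Fin n → ℂ) → ℝ) (z ξ : Fin n → ℂ) : ℝ :=
  (Δ fun ζ : ℂ => φ (z + ζ • ξ)) 0 / 4

/-- `φ` is smooth and plurisubharmonic on `D` and bounded from above on `D`. -/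
def IsBddPsh {n : ℕ} (D : Set (Fin n → ℂ)) (φ : (Fin n → ℂ) → ℝ) : Prop :=
  ContDiffOn ℝ ∞ φ D ∧ (∀ z ∈ D, ∀ ξ, 0 ≤ levi φ z ξ) ∧ BddAbove (φ '' D)

/-- The core of `D`: the points of `D` at which no smooth plurisubharmonic function on `D` that is
bounded from above is strictly plurisubharmonic. -/
def core {n : ℕ} (D : Set (Fin n → ℂ)) : Set (Fin n → ℂ) :=
  {z ∈ D | ∀ φ, IsBddPsh D φ → ¬ ∀ ξ, ξ ≠ 0 → 0 < levi φ z ξ}

/-! ### Second derivatives -/

lemma lap_eq (u : ℂ → ℝ) (z : ℂ) :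
    (Δ u) z = fderiv ℝ (fderiv ℝ u) z 1 1 + fderiv ℝ (fderiv ℝ u) z Complex.I Complex.I := by
  rw [laplacian_eq_iteratedFDeriv_complexPlane]
  simp [iteratedFDeriv_two_apply]

lemma lap_add (u : ℂ → ℝ) (a z : ℂ) : (Δ fun ζ => u (a + ζ)) z = (Δ u) (a + z) := by
  rw [laplacian_eq_iteratedFDeriv_complexPlane, laplacian_eq_iteratedFDeriv_complexPlane]
  simp only [iteratedFDeriv_comp_add_left]

/-- second derivatives along a line -/
lemma second_line {E : Type*} [NormedAddCommGroup E] [NormedSpace ℝ E] (u : E → ℝ) (z v : E)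
    (h : ContDiffAt ℝ 2 u z) :
    deriv (deriv fun t : ℝ => u (z + t • v)) 0 = fderiv ℝ (fderiv ℝ u) z v v := by
  have hline : ∀ t : ℝ, HasDerivAt (fun t : ℝ => z + t • v) v t := by
    intro t
    have := ((hasDerivAt_id t).smul_const v).const_add z
    simpa using this
  have hcont : ContinuousAt (fun t : ℝ => z + t • v) 0 := (hline 0).continuousAt
  have hev : ∀ᶠ y in 𝓝 z, ContDiffAt ℝ 2 u y := h.eventually (by simp)
  have hev' : ∀ᶠ t in 𝓝 (0 : ℝ), ContDiffAt ℝ 2 u (z + t • v) := by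
    apply hcont.eventually
    simpa using hev
  have h1 : (deriv fun t : ℝ => u (z + t • v)) =ᶠ[𝓝 0] fun t => fderiv ℝ u (z + t • v) v := by
    filter_upwards [hev'] with t ht
    have hd : HasFDerivAt u (fderiv ℝ u (z + t • v)) (z + t • v) :=
      (ht.differentiableAt (by simp)).hasFDerivAt
    exact (hd.comp_hasDerivAt t (hline t)).deriv
  rw [h1.deriv_eq]
  have hd2 : HasFDerivAt (fderiv ℝ u) (fderiv ℝ (fderiv ℝ u) z) (z + (0 : ℝ) • v) := by
    have : ContDiffAt ℝ 1 (fderiv ℝ u) z := h.fderiv_right (by norm_num)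
    have h3 := (this.differentiableAt (by simp)).hasFDerivAt
    simpa using h3
  have h4 := hd2.comp_hasDerivAt (0 : ℝ) (hline 0)
  have h5 := h4.clm_apply (hasDerivAt_const (0 : ℝ) v)
  simpa using h5.deriv

lemma second_nonpos (g : ℝ → ℝ) (hc : ContinuousAt g 0) (hm : IsLocalMax g 0) :
    deriv (deriv g) 0 ≤ 0 := by
  by_contra hcon
  push Not at hcon
  have h0 : deriv g 0 = 0 := hm.deriv_eq_zero
  have hmin : IsLocalMin g 0 := isLocalMin_of_deriv_deriv_pos hcon h0 hc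
  have hconst : g =ᶠ[𝓝 0] fun _ => g 0 := by
    filter_upwards [hm, hmin] with t h1 h2
    exact le_antisymm h1 h2
  have h2 : deriv g =ᶠ[𝓝 0] deriv fun _ => g 0 := hconst.deriv
  have h3 : deriv (deriv g) 0 = 0 := by
    rw [h2.deriv_eq]
    simp
  linarith

lemma lap_nonpos (u : ℂ → ℝ) (z : ℂ) (h : ContDiffAt ℝ 2 u z) (hm : IsLocalMax u z) :
    (Δ u) z ≤ 0 := by
  have key : ∀ v : ℂ, fderiv ℝ (fderiv ℝ u) z v v ≤ 0 := by
    intro v
    rw [← second_line u z v h]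
    have hcont : ContinuousAt (fun t : ℝ => z + t • v) 0 := by fun_prop
    have h0 : z + (0 : ℝ) • v = z := by simp
    apply second_nonpos
    · apply ContinuousAt.comp (f := fun t : ℝ => z + t • v) (g := u) _ hcont
      rw [h0]
      exact h.continuousAt
    · have : ∀ᶠ y in 𝓝 (z + (0 : ℝ) • v), u y ≤ u z := by
        rw [h0]
        exact hm
      have h2 := hcont.eventually this
      filter_upwards [h2] with t ht
      simpa using ht
  rw [lap_eq]
  have h1 := key 1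
  have h2 := key Complex.I
  linarith

lemma lap_normSq (a z : ℂ) : (Δ fun ζ : ℂ => ‖ζ - a‖ ^ 2) z = 4 := by
  rw [lap_eq]
  have hc : ∀ z, ContDiffAt ℝ 2 (fun ζ : ℂ => ‖ζ - a‖ ^ 2) z := by
    intro z
    exact ((contDiff_norm_sq ℝ).comp (contDiff_id.sub contDiff_const)).contDiffAt
  rw [← second_line _ _ _ (hc z), ← second_line _ _ _ (hc z)]
  have e1 : (fun t : ℝ => ‖z + t • (1 : ℂ) - a‖ ^ 2)
      = fun t => (z.re - a.re + t) ^ 2 + (z.im - a.im) ^ 2 := by
    funext t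
    rw [← Complex.normSq_eq_norm_sq, Complex.normSq_apply]
    simp
    ring
  have e2 : (fun t : ℝ => ‖z + t • Complex.I - a‖ ^ 2)
      = fun t => (z.re - a.re) ^ 2 + (z.im - a.im + t) ^ 2 := by
    funext t
    rw [← Complex.normSq_eq_norm_sq, Complex.normSq_apply]
    simp
    ring
  rw [e1, e2]
  have d1 : (deriv fun t : ℝ => (z.re - a.re + t) ^ 2 + (z.im - a.im) ^ 2)
      = fun t => 2 * (z.re - a.re + t) := by
    funext t
    have : HasDerivAt (fun t : ℝ => (z.re - a.re + t) ^ 2 + (z.im - a.im) ^ 2)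
        (2 * (z.re - a.re + t)) t := by
      have := (((hasDerivAt_id t).const_add (z.re - a.re)).pow 2).add_const ((z.im - a.im) ^ 2)
      simpa using this
    exact this.deriv
  have d2 : (deriv fun t : ℝ => (z.re - a.re) ^ 2 + (z.im - a.im + t) ^ 2)
      = fun t => 2 * (z.im - a.im + t) := by
    funext t
    have : HasDerivAt (fun t : ℝ => (z.re - a.re) ^ 2 + (z.im - a.im + t) ^ 2)
        (2 * (z.im - a.im + t)) t := by
      have := (((hasDerivAt_id t).const_add (z.im - a.im)).pow 2).const_add ((z.re - a.re) ^ 2)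
      simpa using this
    exact this.deriv
  rw [d1, d2]
  have d3 : HasDerivAt (fun t : ℝ => 2 * (z.re - a.re + t)) 2 0 := by
    have := ((hasDerivAt_id (0 : ℝ)).const_add (z.re - a.re)).const_mul 2
    simpa using this
  have d4 : HasDerivAt (fun t : ℝ => 2 * (z.im - a.im + t)) 2 0 := by
    have := ((hasDerivAt_id (0 : ℝ)).const_add (z.im - a.im)).const_mul 2
    simpa using this
  rw [d3.deriv, d4.deriv]
  norm_num

/-- weak maximum principle for `C²` subharmonic functions -/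
lemma max_principle (U : Set ℂ) (hU : IsOpen U) (hb : Bornology.IsBounded U) (u : ℂ → ℝ)
    (hc : ContinuousOn u (closure U)) (h2 : ∀ z ∈ U, ContDiffAt ℝ 2 u z)
    (hL : ∀ z ∈ U, 0 ≤ (Δ u) z) (B : ℝ) (hB : ∀ z ∈ closure U \ U, u z ≤ B) :
    ∀ z ∈ U, u z ≤ B := by
  intro z0 hz0
  by_contra hcon
  push Not at hcon
  have hK : IsCompact (closure U) := hb.isCompact_closure
  obtain ⟨C, hC⟩ := hK.exists_bound_of_continuousOn (f := fun z : ℂ => ‖z - 0‖ ^ 2) (by fun_prop)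
  have hC' : ∀ z ∈ closure U, ‖z - 0‖ ^ 2 ≤ C := fun z hz => (le_abs_self _).trans (hC z hz)
  have hC0 : 0 ≤ C := le_trans (by positivity) (hC' z0 (subset_closure hz0))
  set ε := (u z0 - B) / (2 * (C + 1)) with hε
  have hεpos : 0 < ε := by
    apply div_pos (by linarith) (by linarith)
  have hεC : ε * C < u z0 - B := by
    rw [hε, div_mul_eq_mul_div, div_lt_iff₀ (by linarith)]
    nlinarith
  have hcv : ContinuousOn (fun z => u z + ε * ‖z - 0‖ ^ 2) (closure U) := by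
    apply hc.add
    fun_prop
  obtain ⟨zs, hzs, hmax⟩ := hK.exists_isMaxOn ⟨z0, subset_closure hz0⟩ hcv
  by_cases hin : zs ∈ U
  · have hloc : IsLocalMax (fun z => u z + ε * ‖z - 0‖ ^ 2) zs := by
      filter_upwards [hU.mem_nhds hin] with y hy
      exact hmax (subset_closure hy)
    have hcn : ContDiffAt ℝ 2 (fun ζ : ℂ => ‖ζ - 0‖ ^ 2) zs :=
      ((contDiff_norm_sq ℝ).comp (contDiff_id.sub contDiff_const)).contDiffAt
    have hcn' : ContDiffAt ℝ 2 (ε • fun ζ : ℂ => ‖ζ - 0‖ ^ 2) zs := hcn.const_smul ε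
    have e : (fun z => u z + ε * ‖z - 0‖ ^ 2) = u + ε • fun ζ : ℂ => ‖ζ - 0‖ ^ 2 := by
      funext z
      simp
    have h3 := lap_nonpos (fun z => u z + ε * ‖z - 0‖ ^ 2) zs (by
      rw [e]
      exact (h2 zs hin).add hcn') hloc
    rw [e, (h2 zs hin).laplacian_add hcn', laplacian_smul ε hcn, lap_normSq] at h3
    have h4 := hL zs hin
    simp only [smul_eq_mul] at h3
    linarith
  · have h5 := hB zs ⟨hzs, hin⟩
    have h6 := hmax (subset_closure hz0)
    simp only [Set.mem_ofPred_eq] at h6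
    have h7 := hC' zs hzs
    have h8 : 0 ≤ ε * ‖z0 - 0‖ ^ 2 := by positivity
    have h9 : ε * ‖zs - 0‖ ^ 2 ≤ ε * C := mul_le_mul_of_nonneg_left h7 hεpos.le
    linarith

lemma levi_eq {n : ℕ} (φ : (Fin n → ℂ) → ℝ) (p ξ : Fin n → ℂ) (h : ContDiffAt ℝ 2 φ p) :
    levi φ p ξ = (fderiv ℝ (fderiv ℝ φ) p ξ ξ
      + fderiv ℝ (fderiv ℝ φ) p (Complex.I • ξ) (Complex.I • ξ)) / 4 := by
  have hu : ContDiffAt ℝ 2 (fun ζ : ℂ => φ (p + ζ • ξ)) 0 := by
    apply ContDiffAt.comp (f := fun ζ : ℂ => p + ζ • ξ) (g := φ)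
    · simpa using h
    · exact contDiffAt_const.add (contDiffAt_id.smul contDiffAt_const)
  unfold levi
  rw [lap_eq, ← second_line _ _ _ hu, ← second_line _ _ _ hu, ← second_line φ p ξ h,
    ← second_line φ p (Complex.I • ξ) h]
  have e1 : (fun t : ℝ => φ (p + (0 + t • (1 : ℂ)) • ξ)) = fun t => φ (p + t • ξ) := by
    funext t
    congr 2
    ext i
    simp
  have e2 : (fun t : ℝ => φ (p + (0 + t • Complex.I) • ξ))
      = fun t => φ (p + t • Complex.I • ξ) := by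
    funext t
    congr 2
    ext i
    simp [mul_assoc]
  rw [e1, e2]

lemma dd (a b c a' b' c' : ℝ) :
    deriv (deriv fun t : ℝ => (a + t * b + t ^ 2 * c) ^ 2 + (a' + t * b' + t ^ 2 * c') ^ 2) 0
      = 2 * b ^ 2 + 4 * a * c + (2 * b' ^ 2 + 4 * a' * c') := by
  have h1 : ∀ a b c t : ℝ, HasDerivAt (fun t : ℝ => a + t * b + t ^ 2 * c) (b + 2 * t * c) t := by
    intro a b c t
    have := (((hasDerivAt_id t).mul_const b).const_add a).fun_add
      (((hasDerivAt_id t).fun_pow 2).mul_const c)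
    simpa using this
  have h2 : (deriv fun t : ℝ => (a + t * b + t ^ 2 * c) ^ 2 + (a' + t * b' + t ^ 2 * c') ^ 2)
      = fun t => 2 * (a + t * b + t ^ 2 * c) * (b + 2 * t * c)
        + 2 * (a' + t * b' + t ^ 2 * c') * (b' + 2 * t * c') := by
    funext t
    have := ((h1 a b c t).fun_pow 2).fun_add ((h1 a' b' c' t).fun_pow 2)
    simpa using this.deriv
  rw [h2]
  have h3 : ∀ b c t : ℝ, HasDerivAt (fun t : ℝ => b + 2 * t * c) (2 * c) t := by
    intro b c t
    have := (((hasDerivAt_id t).const_mul 2).mul_const c).const_add b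
    simpa using this
  have h4 := ((((h1 a b c 0).const_mul 2).fun_mul (h3 b c 0)).fun_add
    (((h1 a' b' c' 0).const_mul 2).fun_mul (h3 b' c' 0))).deriv
  have e : (deriv fun t : ℝ => 2 * (a + t * b + t ^ 2 * c) * (b + 2 * t * c)
        + 2 * (a' + t * b' + t ^ 2 * c') * (b' + 2 * t * c')) 0 = _ := h4
  rw [e]
  ring

lemma lap_quad (a b c : ℂ) : (Δ fun ζ : ℂ => ‖a + b * ζ + c * ζ ^ 2‖ ^ 2) 0 = 4 * ‖b‖ ^ 2 := by
  have hc : ContDiffAt ℝ 2 (fun ζ : ℂ => ‖a + b * ζ + c * ζ ^ 2‖ ^ 2) 0 := by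
    apply ((contDiff_norm_sq ℝ).comp _).contDiffAt
    exact (contDiff_const.add (contDiff_const.mul contDiff_id)).add
      (contDiff_const.mul (contDiff_id.pow 2))
  rw [lap_eq, ← second_line _ _ _ hc, ← second_line _ _ _ hc]
  have e1 : (fun t : ℝ => ‖a + b * (0 + t • (1 : ℂ)) + c * (0 + t • (1 : ℂ)) ^ 2‖ ^ 2)
      = fun t => (a.re + t * b.re + t ^ 2 * c.re) ^ 2 + (a.im + t * b.im + t ^ 2 * c.im) ^ 2 := by
    funext t
    rw [← Complex.normSq_eq_norm_sq, Complex.normSq_apply]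
    simp [pow_two]
    ring
  have e2 : (fun t : ℝ => ‖a + b * (0 + t • Complex.I) + c * (0 + t • Complex.I) ^ 2‖ ^ 2)
      = fun t => (a.re + t * (-b.im) + t ^ 2 * (-c.re)) ^ 2
        + (a.im + t * b.re + t ^ 2 * (-c.im)) ^ 2 := by
    funext t
    rw [← Complex.normSq_eq_norm_sq, Complex.normSq_apply]
    simp [pow_two]
    ring
  rw [e1, e2, dd, dd, ← Complex.normSq_eq_norm_sq, Complex.normSq_apply]
  ring

/-! ### The two domains -/

/-- `{(z, w) : |w| < 1, |z w| < 1}` without the points `(z, 0)`, `|z| ≥ 1`. -/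
def Om : Set (Fin 2 → ℂ) := {p | ‖p 1‖ < 1 ∧ ‖p 0 * p 1‖ < 1 ∧ (p 1 = 0 → ‖p 0‖ < 1)}

/-- the bidisc -/
def om : Set (Fin 2 → ℂ) := {p | ‖p 0‖ < 1 ∧ ‖p 1‖ < 1}

lemma om_sub : om ⊆ Om := by
  rintro p ⟨h0, h1⟩
  refine ⟨h1, ?_, fun _ => h0⟩
  rw [norm_mul]
  nlinarith [norm_nonneg (p 0), norm_nonneg (p 1)]

lemma isOpen_Om : IsOpen Om := by
  have e : Om = {p | ‖p 1‖ < 1} ∩ {p | ‖p 0 * p 1‖ < 1} ∩ {p | p 1 = 0 ∧ 1 ≤ ‖p 0‖}ᶜ := by
    ext p
    simp only [Om, Set.mem_ofPred_eq, Set.mem_inter_iff, Set.mem_compl_iff, not_and, not_le]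
    tauto
  rw [e]
  apply IsOpen.inter
  · apply IsOpen.inter
    · exact isOpen_lt (by fun_prop) continuous_const
    · exact isOpen_lt (by fun_prop) continuous_const
  · have hcl : IsClosed ({p : Fin 2 → ℂ | p 1 = 0} ∩ {p | 1 ≤ ‖p 0‖}) :=
      (isClosed_eq (by fun_prop) continuous_const).inter
        (isClosed_le continuous_const (by fun_prop))
    exact hcl.isOpen_compl

lemma isOpen_om : IsOpen om := by
  have h : IsOpen ({p : Fin 2 → ℂ | ‖p 0‖ < 1} ∩ {p | ‖p 1‖ < 1}) :=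
    (isOpen_lt (by fun_prop) continuous_const).inter (isOpen_lt (by fun_prop) continuous_const)
  exact h

lemma zero_mem_om : (0 : Fin 2 → ℂ) ∈ om := by
  simp [om]

lemma star_Om : StarConvex ℝ 0 Om := by
  rw [starConvex_zero_iff]
  rintro p ⟨h1, h2, h3⟩ a ha0 ha1
  have hn : ‖((a : ℝ) • p) 1‖ ≤ ‖p 1‖ := by
    simp only [Pi.smul_apply, norm_smul, Real.norm_eq_abs, abs_of_nonneg ha0]
    nlinarith [norm_nonneg (p 1)]
  have hn0 : ‖((a : ℝ) • p) 0‖ ≤ ‖p 0‖ := by
    simp only [Pi.smul_apply, norm_smul, Real.norm_eq_abs, abs_of_nonneg ha0]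
    nlinarith [norm_nonneg (p 0)]
  refine ⟨lt_of_le_of_lt hn h1, ?_, ?_⟩
  · rw [norm_mul] at h2 ⊢
    refine lt_of_le_of_lt ?_ h2
    exact mul_le_mul hn0 hn (norm_nonneg _) (norm_nonneg _)
  · intro h
    have h4 : a = 0 ∨ p 1 = 0 := by simpa using h
    rcases h4 with h4 | h4
    · simp [h4]
    · exact lt_of_le_of_lt hn0 (h3 h4)

lemma star_om : StarConvex ℝ 0 om := by
  rw [starConvex_zero_iff]
  rintro p ⟨h1, h2⟩ a ha0 ha1
  have hn : ‖((a : ℝ) • p) 1‖ ≤ ‖p 1‖ := by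
    simp only [Pi.smul_apply, norm_smul, Real.norm_eq_abs, abs_of_nonneg ha0]
    nlinarith [norm_nonneg (p 1)]
  have hn0 : ‖((a : ℝ) • p) 0‖ ≤ ‖p 0‖ := by
    simp only [Pi.smul_apply, norm_smul, Real.norm_eq_abs, abs_of_nonneg ha0]
    nlinarith [norm_nonneg (p 0)]
  exact ⟨lt_of_le_of_lt hn0 h1, lt_of_le_of_lt hn h2⟩

lemma isDom_Om : IsDom Om :=
  ⟨isOpen_Om, (star_Om.isPathConnected (om_sub zero_mem_om)).isConnected⟩

lemma isDom_om : IsDom om :=
  ⟨isOpen_om, (star_om.isPathConnected zero_mem_om).isConnected⟩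

/-! ### Two test functions -/

lemma levi_one (p ξ : Fin 2 → ℂ) :
    levi (fun q : Fin 2 → ℂ => ‖q 0‖ ^ 2 + ‖q 1‖ ^ 2) p ξ = ‖ξ 0‖ ^ 2 + ‖ξ 1‖ ^ 2 := by
  unfold levi
  have hc : ∀ a b c : ℂ, ContDiffAt ℝ 2 (fun ζ : ℂ => ‖a + b * ζ + c * ζ ^ 2‖ ^ 2) 0 := by
    intro a b c
    apply ((contDiff_norm_sq ℝ).comp _).contDiffAt
    exact (contDiff_const.add (contDiff_const.mul contDiff_id)).add
      (contDiff_const.mul (contDiff_id.pow 2))
  have e : (fun ζ : ℂ => ‖(p + ζ • ξ) 0‖ ^ 2 + ‖(p + ζ • ξ) 1‖ ^ 2)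
      = (fun ζ : ℂ => ‖p 0 + ξ 0 * ζ + 0 * ζ ^ 2‖ ^ 2)
        + fun ζ : ℂ => ‖p 1 + ξ 1 * ζ + 0 * ζ ^ 2‖ ^ 2 := by
    funext ζ
    simp [mul_comm]
  rw [e, (hc _ _ _).laplacian_add (hc _ _ _), lap_quad, lap_quad]
  ring

lemma levi_two (p ξ : Fin 2 → ℂ) :
    levi (fun q : Fin 2 → ℂ => ‖q 1‖ ^ 2 + ‖q 0 * q 1‖ ^ 2) p ξ
      = ‖ξ 1‖ ^ 2 + ‖p 0 * ξ 1 + ξ 0 * p 1‖ ^ 2 := by
  unfold levi
  have hc : ∀ a b c : ℂ, ContDiffAt ℝ 2 (fun ζ : ℂ => ‖a + b * ζ + c * ζ ^ 2‖ ^ 2) 0 := by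
    intro a b c
    apply ((contDiff_norm_sq ℝ).comp _).contDiffAt
    exact (contDiff_const.add (contDiff_const.mul contDiff_id)).add
      (contDiff_const.mul (contDiff_id.pow 2))
  have e : (fun ζ : ℂ => ‖(p + ζ • ξ) 1‖ ^ 2 + ‖(p + ζ • ξ) 0 * (p + ζ • ξ) 1‖ ^ 2)
      = (fun ζ : ℂ => ‖p 1 + ξ 1 * ζ + 0 * ζ ^ 2‖ ^ 2)
        + fun ζ : ℂ => ‖p 0 * p 1 + (p 0 * ξ 1 + ξ 0 * p 1) * ζ + ξ 0 * ξ 1 * ζ ^ 2‖ ^ 2 := by
    funext ζ
    simp only [Pi.add_apply, Pi.smul_apply, smul_eq_mul]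
    congr 3
    · ring
    · ring
  rw [e, (hc _ _ _).laplacian_add (hc _ _ _), lap_quad, lap_quad]
  ring

lemma core_om : core om = ∅ := by
  rw [Set.eq_empty_iff_forall_notMem]
  rintro p ⟨hp, h⟩
  refine h (fun q : Fin 2 → ℂ => ‖q 0‖ ^ 2 + ‖q 1‖ ^ 2) ⟨?_, ?_, ?_⟩ ?_
  · apply ContDiff.contDiffOn
    exact ((contDiff_norm_sq ℝ).comp (contDiff_apply ℝ ℂ 0)).add
      ((contDiff_norm_sq ℝ).comp (contDiff_apply ℝ ℂ 1))
  · intro z _ ξ
    rw [levi_one]
    positivity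
  · refine ⟨2, ?_⟩
    rintro _ ⟨q, ⟨h0, h1⟩, rfl⟩
    simp only
    nlinarith [norm_nonneg (q 0), norm_nonneg (q 1)]
  · intro ξ hξ
    rw [levi_one]
    by_cases h0 : ξ 0 = 0
    · have h1 : ξ 1 ≠ 0 := by
        intro h1
        apply hξ
        ext i
        fin_cases i <;> simp [h0, h1]
      have := norm_pos_iff.mpr h1
      positivity
    · have := norm_pos_iff.mpr h0
      positivity

lemma core_Om_sub : core Om ⊆ {p | p 1 = 0 ∧ ‖p 0‖ < 1} := by
  rintro p ⟨hp, h⟩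
  by_cases h1 : p 1 = 0
  · exact ⟨h1, hp.2.2 h1⟩
  exfalso
  refine h (fun q : Fin 2 → ℂ => ‖q 1‖ ^ 2 + ‖q 0 * q 1‖ ^ 2) ⟨?_, ?_, ?_⟩ ?_
  · apply ContDiff.contDiffOn
    exact ((contDiff_norm_sq ℝ).comp (contDiff_apply ℝ ℂ 1)).add
      ((contDiff_norm_sq ℝ).comp ((contDiff_apply ℝ ℂ 0).mul (contDiff_apply ℝ ℂ 1)))
  · intro z _ ξ
    rw [levi_two]
    positivity
  · refine ⟨2, ?_⟩
    rintro _ ⟨q, ⟨h0, h1, -⟩, rfl⟩
    simp only
    nlinarith [norm_nonneg (q 1), norm_nonneg (q 0 * q 1)]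
  · intro ξ hξ
    rw [levi_two]
    by_cases h2 : ξ 1 = 0
    · have h3 : ξ 0 ≠ 0 := by
        intro h3
        apply hξ
        ext i
        fin_cases i <;> simp [h2, h3]
      have := norm_pos_iff.mpr (mul_ne_zero h3 h1)
      rw [h2]
      simp only [mul_zero, zero_add]
      positivity
    · have := norm_pos_iff.mpr h2
      positivity

/-! ### Large discs -/

lemma zero_mem_core : (0 : Fin 2 → ℂ) ∈ core Om := by
  refine ⟨om_sub zero_mem_om, ?_⟩
  rintro φ ⟨hs, hpsh, M, hM⟩ hstr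
  have hc2 : ∀ p ∈ Om, ContDiffAt ℝ 2 φ p := fun p hp =>
    ((hs p hp).contDiffAt (isOpen_Om.mem_nhds hp)).of_le
      (WithTop.coe_le_coe.2 le_top)
  have h0Om : (0 : Fin 2 → ℂ) ∈ Om := om_sub zero_mem_om
  have hc0 : 0 < levi φ 0 ![1, 0] := by
    apply hstr
    intro h
    have := congrFun h 0
    simp at this
  set c0 := levi φ 0 ![1, 0] with hc0def
  have hcont : ContinuousAt (fun p => levi φ p ![1, 0]) 0 := by
    have h1 : ContDiffAt ℝ 1 (fderiv ℝ φ) 0 := (hc2 0 h0Om).fderiv_right (by norm_num)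
    have h2 : ContDiffAt ℝ 0 (fderiv ℝ (fderiv ℝ φ)) 0 := h1.fderiv_right (by norm_num)
    have h3 : ContinuousAt (fderiv ℝ (fderiv ℝ φ)) 0 := h2.continuousAt
    have h4 : (fun p => levi φ p ![1, 0]) =ᶠ[𝓝 0] fun p =>
        (fderiv ℝ (fderiv ℝ φ) p ![1, 0] ![1, 0]
          + fderiv ℝ (fderiv ℝ φ) p (Complex.I • ![1, 0]) (Complex.I • ![1, 0])) / 4 := by
      filter_upwards [isOpen_Om.mem_nhds h0Om] with p hp
      exact levi_eq φ p _ (hc2 p hp)
    rw [continuousAt_congr h4]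
    have h5 : ∀ v : Fin 2 → ℂ, ContinuousAt (fun p => fderiv ℝ (fderiv ℝ φ) p v v) 0 := by
      intro v
      exact (h3.clm_apply continuousAt_const).clm_apply continuousAt_const
    exact ((h5 _).add (h5 _)).div_const 4
  have hφcont : ContinuousAt φ 0 := (hc2 0 h0Om).continuousAt
  have hev : ∀ᶠ p in 𝓝 (0 : Fin 2 → ℂ), c0 / 2 < levi φ p ![1, 0] ∧ φ 0 - 1 < φ p := by
    apply (hcont.eventually (lt_mem_nhds (by linarith : c0 / 2 < c0))).and
    exact hφcont.eventually (lt_mem_nhds (by linarith : φ 0 - 1 < φ 0))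
  obtain ⟨δ, hδ, hball⟩ := Metric.eventually_nhds_iff.mp hev
  set r := min δ 1 / 2 with hr
  have hr0 : 0 < r := by
    rw [hr]
    have : 0 < min δ 1 := lt_min hδ one_pos
    linarith
  have hrδ : r < δ := by
    rw [hr]
    have h1 : min δ 1 ≤ δ := min_le_left _ _
    have h2 : 0 < min δ 1 := lt_min hδ one_pos
    linarith
  have hr1 : r < 1 := by
    rw [hr]
    have h1 : min δ 1 ≤ 1 := min_le_right _ _
    linarith
  set η := c0 * r ^ 2 / 8 with hη
  have hη0 : 0 < η := by positivity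
  set κ := η / 2 with hκ
  have hκ0 : 0 < κ := by positivity
  set T := (M - φ 0 + 1) / κ with hT
  set s := min (r / 2) (Real.exp (-T)) with hsdef
  have hs0 : 0 < s := lt_min (by linarith) (Real.exp_pos _)
  have hsr : s ≤ r / 2 := min_le_left _ _
  have hsT : s ≤ Real.exp (-T) := min_le_right _ _
  set R := 1 / (2 * s) with hR
  have hRs : R * s = 1 / 2 := by
    rw [hR]
    field_simp
  have hR0 : 0 < R := by positivity
  have hrR : r < R := by
    rw [hR, lt_div_iff₀ (by positivity)]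
    nlinarith
  have hlogR : M - φ 0 + 1 ≤ κ * (Real.log R - Real.log (r / 2)) := by
    have h1 : Real.log R - Real.log (r / 2) = -Real.log (s * r) := by
      rw [← Real.log_div hR0.ne' (by positivity), ← Real.log_inv]
      congr 1
      rw [hR]
      field_simp
    have h2 : Real.log (s * r) ≤ -T := by
      rw [Real.log_le_iff_le_exp (by positivity)]
      nlinarith
    rw [h1]
    have h3 : κ * T = M - φ 0 + 1 := by
      rw [hT]
      field_simp
    nlinarith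
  -- the slice
  set q : ℂ → (Fin 2 → ℂ) := fun z => ![0, (s : ℂ)] + z • ![1, 0] with hq
  have hq0 : ∀ z, q z 0 = z := by
    intro z
    simp [hq]
  have hq1 : ∀ z, q z 1 = s := by
    intro z
    simp [hq]
  have hsn : ‖(s : ℂ)‖ = s := by
    rw [Complex.norm_real, Real.norm_eq_abs, abs_of_pos hs0]
  have hqOm : ∀ z, ‖z‖ ≤ R → q z ∈ Om := by
    intro z hz
    refine ⟨?_, ?_, ?_⟩
    · rw [hq1, hsn]
      linarith
    · rw [hq0, hq1, norm_mul, hsn]
      nlinarith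
    · intro h
      rw [hq1] at h
      have : s = 0 := by exact_mod_cast h
      linarith
  set u : ℂ → ℝ := fun z => φ (q z) with hu
  have hucd : ∀ z, ‖z‖ ≤ R → ContDiffAt ℝ 2 u z := by
    intro z hz
    apply ContDiffAt.comp (f := q) (g := φ)
    · exact hc2 _ (hqOm z hz)
    · exact contDiffAt_const.add (contDiffAt_id.smul contDiffAt_const)
  have hulap : ∀ z, (Δ u) z = 4 * levi φ (q z) ![1, 0] := by
    intro z
    have h1 := lap_add u z 0
    rw [add_zero] at h1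
    rw [← h1]
    unfold levi
    have e : (fun ζ => u (z + ζ)) = fun ζ : ℂ => φ (q z + ζ • ![1, 0]) := by
      funext ζ
      simp only [hu, hq]
      congr 1
      rw [add_smul, add_assoc]
    rw [e]
    ring
  have hulap0 : ∀ z, ‖z‖ ≤ R → 0 ≤ (Δ u) z := by
    intro z hz
    rw [hulap]
    have := hpsh (q z) (hqOm z hz) ![1, 0]
    linarith
  have hqdist : ∀ z, ‖z‖ ≤ r → dist (q z) 0 < δ := by
    intro z hz
    rw [dist_pi_lt_iff hδ]
    intro i
    fin_cases i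
    · simp only [Fin.zero_eta, Pi.zero_apply, dist_zero_right, hq0]
      linarith
    · simp only [Fin.mk_one, Pi.zero_apply, dist_zero_right, hq1, hsn]
      linarith
  have hulap1 : ∀ z, ‖z‖ ≤ r → 2 * c0 ≤ (Δ u) z := by
    intro z hz
    rw [hulap]
    have := (hball (hqdist z hz)).1
    linarith
  have huM : ∀ z, ‖z‖ ≤ R → u z ≤ M := fun z hz => hM ⟨q z, hqOm z hz, rfl⟩
  have hu0 : φ 0 - 1 < u 0 := (hball (hqdist 0 (by simpa using hr0.le))).2
  have hucont : ∀ ρ, ρ ≤ R → ContinuousOn u (Metric.closedBall 0 ρ) := by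
    intro ρ hρ z hz
    rw [mem_closedBall_zero_iff] at hz
    exact (hucd z (hz.trans hρ)).continuousAt.continuousWithinAt
  obtain ⟨z1, hz1, hz1m⟩ := (isCompact_closedBall (0 : ℂ) (r / 2)).exists_isMaxOn
    ⟨0, by simp; linarith⟩ (hucont (r / 2) (by linarith))
  obtain ⟨z2, hz2, hz2m⟩ := (isCompact_closedBall (0 : ℂ) r).exists_isMaxOn
    ⟨0, by simp; linarith⟩ (hucont r hrR.le)
  have hm0 : u 0 ≤ u z1 := hz1m (by simp; linarith)
  have hz1' : ‖z1‖ ≤ r / 2 := by simpa using hz1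
  have hz2' : ‖z2‖ ≤ r := by simpa using hz2
  -- step A
  have stepA : u z1 + η ≤ u z2 := by
    have hcn : ∀ z, ContDiffAt ℝ 2 (fun ζ : ℂ => ‖ζ - z1‖ ^ 2) z := fun z =>
      ((contDiff_norm_sq ℝ).comp (contDiff_id.sub contDiff_const)).contDiffAt
    have hsm : ∀ z, ContDiffAt ℝ 2 ((-(c0 / 2)) • fun ζ : ℂ => ‖ζ - z1‖ ^ 2) z := fun z =>
      (hcn z).const_smul (-(c0 / 2))
    have hsub : ∀ z, z ∈ Metric.closedBall z1 (r / 2) → ‖z‖ ≤ r := by
      intro z hz
      rw [mem_closedBall_iff_norm] at hz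
      calc ‖z‖ = ‖(z - z1) + z1‖ := by rw [sub_add_cancel]
        _ ≤ ‖z - z1‖ + ‖z1‖ := norm_add_le _ _
        _ ≤ r := by linarith
    have hclos : closure (Metric.ball z1 (r / 2)) = Metric.closedBall z1 (r / 2) :=
      closure_ball z1 (by linarith)
    have h := max_principle (Metric.ball z1 (r / 2)) Metric.isOpen_ball Metric.isBounded_ball
      (u + (-(c0 / 2)) • fun ζ : ℂ => ‖ζ - z1‖ ^ 2) ?_ ?_ ?_ (u z2 - c0 / 2 * (r / 2) ^ 2) ?_ z1
      (Metric.mem_ball_self (by linarith))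
    · simp only [Pi.add_apply, Pi.smul_apply, sub_self, norm_zero, smul_eq_mul] at h
      have h2 : c0 / 2 * (r / 2) ^ 2 = η := by
        rw [hη]
        ring
      rw [h2] at h
      simp only [ne_eq, OfNat.ofNat_ne_zero, not_false_eq_true, zero_pow, mul_zero,
        add_zero] at h
      linarith
    · rw [hclos]
      apply ContinuousOn.add
      · intro z hz
        exact (hucd z ((hsub z hz).trans hrR.le)).continuousAt.continuousWithinAt
      · intro z _
        exact (hsm z).continuousAt.continuousWithinAt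
    · intro z hz
      exact (hucd z ((hsub z (Metric.ball_subset_closedBall hz)).trans hrR.le)).add (hsm z)
    · intro z hz
      have hzr := hsub z (Metric.ball_subset_closedBall hz)
      rw [(hucd z (hzr.trans hrR.le)).laplacian_add (hsm z),
        laplacian_smul _ (hcn z), lap_normSq]
      have := hulap1 z hzr
      simp only [smul_eq_mul]
      linarith
    · rintro z ⟨hz, hz'⟩
      rw [hclos] at hz
      have h1 : ‖z - z1‖ = r / 2 := by
        rw [mem_closedBall_iff_norm] at hz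
        rw [mem_ball_iff_norm, not_lt] at hz'
        exact le_antisymm hz hz'
      have h2 : u z ≤ u z2 := hz2m (by
        rw [mem_closedBall_zero_iff]
        exact hsub z hz)
      simp only [Pi.add_apply, Pi.smul_apply, smul_eq_mul, h1]
      linarith
  have hz2r : r / 2 < ‖z2‖ := by
    by_contra hcon
    push Not at hcon
    have : u z2 ≤ u z1 := hz1m (by
      rw [mem_closedBall_zero_iff]
      exact hcon)
    linarith
  -- step B
  have hlogc : ∀ z : ℂ, z ≠ 0 → HarmonicAt (fun ζ : ℂ => Real.log ‖ζ‖) z := by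
    intro z hz
    exact (analyticAt_id (𝕜 := ℂ) (z := z)).harmonicAt_log_norm hz
  have hlsm : ∀ z : ℂ, z ≠ 0 → ContDiffAt ℝ 2 ((-κ) • fun ζ : ℂ => Real.log ‖ζ‖) z :=
    fun z hz => (hlogc z hz).1.const_smul (-κ)
  set U : Set ℂ := {z | r / 2 < ‖z‖ ∧ ‖z‖ < R} with hU
  have hUo : IsOpen U := (isOpen_lt continuous_const continuous_norm).inter
    (isOpen_lt continuous_norm continuous_const)
  have hUcl : closure U ⊆ {z | r / 2 ≤ ‖z‖ ∧ ‖z‖ ≤ R} := by
    apply closure_minimal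
    · rintro z ⟨h1, h2⟩
      exact ⟨h1.le, h2.le⟩
    · exact (isClosed_le continuous_const continuous_norm).inter
        (isClosed_le continuous_norm continuous_const)
  have hne : ∀ z : ℂ, r / 2 ≤ ‖z‖ → z ≠ 0 := by
    intro z hz h
    rw [h, norm_zero] at hz
    linarith
  have stepB := max_principle U hUo
    (Metric.isBounded_closedBall.subset (fun z hz => by
      rw [mem_closedBall_zero_iff]
      exact hz.2.le) : Bornology.IsBounded U)
    (u + (-κ) • fun ζ : ℂ => Real.log ‖ζ‖) ?_ ?_ ?_ (u z1 - κ * Real.log (r / 2)) ?_ z2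
    ⟨hz2r, by linarith⟩
  · simp only [Pi.add_apply, Pi.smul_apply, smul_eq_mul] at stepB
    have h1 : Real.log ‖z2‖ ≤ Real.log r := Real.log_le_log (by linarith) hz2'
    have h2 : Real.log (r / 2) = Real.log r - Real.log 2 := Real.log_div hr0.ne' (by norm_num)
    have h3 : Real.log 2 < 1 := by
      have := Real.log_two_lt_d9
      linarith
    rw [h2] at stepB
    have h4 : κ * Real.log ‖z2‖ ≤ κ * Real.log r := mul_le_mul_of_nonneg_left h1 hκ0.le
    have h5 : κ * Real.log 2 < κ * 1 := mul_lt_mul_of_pos_left h3 hκ0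
    have h6 : η = 2 * κ := by
      rw [hκ]
      ring
    nlinarith
  · intro z hz
    have hz' := hUcl hz
    exact ((hucd z hz'.2).add (hlsm z (hne z hz'.1))).continuousAt.continuousWithinAt
  · intro z hz
    exact (hucd z hz.2.le).add (hlsm z (hne z hz.1.le))
  · intro z hz
    have hh := hlogc z (hne z hz.1.le)
    rw [(hucd z hz.2.le).laplacian_add (hlsm z (hne z hz.1.le)), laplacian_smul _ hh.1,
      hh.2.eq_of_nhds]
    have := hulap0 z hz.2.le
    simpa using this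
  · rintro z ⟨hz, hz'⟩
    have hz1 := hUcl hz
    simp only [Pi.add_apply, Pi.smul_apply, smul_eq_mul]
    rcases eq_or_lt_of_le hz1.1 with h1 | h1
    · have h2 : u z ≤ u z1 := hz1m (by
        rw [mem_closedBall_zero_iff]
        exact h1.symm.le)
      rw [← h1]
      linarith
    · have h2 : ‖z‖ = R := by
        by_contra hcon
        exact hz' ⟨h1, lt_of_le_of_ne hz1.2 hcon⟩
      have h3 := huM z hz1.2
      rw [h2]
      nlinarith

/-- **Negative answer.** There are domains `Ω' ⊆ Ω` in `ℂ²` such that the core of `Ω` is contained in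
`Ω'` and the cores of `Ω'` and `Ω` are different: the core of `Ω'` is empty, that of `Ω` is not. -/
theorem result : ∃ Ω Ω' : Set (Fin 2 → ℂ), IsDom Ω ∧ IsDom Ω' ∧ Ω' ⊆ Ω ∧ core Ω ⊆ Ω' ∧
    core Ω' = ∅ ∧ (core Ω).Nonempty := by
  refine ⟨Om, om, isDom_Om, isDom_om, om_sub, ?_, core_om, ⟨0, zero_mem_core⟩⟩
  intro p hp
  have h := core_Om_sub hp
  refine ⟨h.2, ?_⟩
  rw [h.1]
  simp

end Pool.Agent.Results.MP_902c37_an.CoreShrinks
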